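import Pool.Agent.Helper29.E3.St1

/-!
Module GNP of E3: sum over the points `(φ + i) / n`.
-/

set_option autoImplicit false

namespace Pool.Agent.Helper45.E3

open Finset
open Pool.Agent.Helper29.E3 Pool.Agent.Helper49.PC
open Pool.Agent.Helper48.BK (ex th lz Vz Pz gs nd Apx AdN Sol thd)

theorem nd_le (t : ℝ) (k : ℤ) : nd t ≤ |t - k| := round_le t k

theorem le_nd {t c : ℝ} (h : ∀ k : ℤ, c ≤ |t - k|) : c ≤ nd t := h (round t)

theorem nd_add_int (t : ℝ) (k : ℤ) : nd (t + k) = nd t := by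
  simp [nd, round_add_intCast]

theorem nd_neg (t : ℝ) : nd (-t) = nd t := by
  apply le_antisymm
  · apply le_nd
    intro k
    have h := nd_le (-t) (-k)
    rw [show -t - ((-k : ℤ) : ℝ) = -(t - k) by push_cast; ring, abs_neg] at h
    exact h
  · apply le_nd
    intro k
    have h := nd_le t (-k)
    rw [show t - ((-k : ℤ) : ℝ) = -(-t - k) by push_cast; ring, abs_neg] at h
    exact h

theorem gs_nonneg {X t : ℝ} (hX : 0 ≤ X) : 0 ≤ gs X t := by
  unfold gs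
  split_ifs
  · exact hX
  · exact one_div_nonneg.2 (abs_nonneg _)

theorem gs_le {X t c : ℝ} (hc : 0 < c) (h : c ≤ nd t) : gs X t ≤ 1 / c := by
  have h0 : 0 < nd t := lt_of_lt_of_le hc h
  unfold gs
  split_ifs with h1
  · rw [le_div_iff₀ hc]
    by_cases hX : 0 ≤ X
    · exact (mul_le_mul_of_nonneg_left h hX).trans h1
    · push Not at hX
      nlinarith
  · exact one_div_le_one_div_of_le hc h

theorem sum_shift {n : ℕ} (hn : 1 ≤ n) (F : ℤ → ℝ) (hF : ∀ j, F (j + n) = F j) (m : ℤ) :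
    ∑ i ∈ range n, F (i + m) = ∑ i ∈ range n, F i := by
  have hper : Function.Periodic F (n : ℤ) := hF
  have hmod : ∀ j : ℤ, F (j % n) = F j := fun j => by
    have h := hper.sub_zsmul_eq (x := j) (j / n)
    rw [← h]
    congr 1
    rw [smul_eq_mul, Int.emod_def, mul_comm]
  have hn0 : (0 : ℤ) < n := by exact_mod_cast hn
  refine Finset.sum_nbij' (fun i => (((i : ℤ) + m) % n).toNat) (fun i => (((i : ℤ) - m) % n).toNat)
    ?_ ?_ ?_ ?_ ?_
  · intro i _
    rw [mem_range]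
    have h1 := Int.emod_nonneg ((i : ℤ) + m) hn0.ne'
    have h2 := Int.emod_lt_of_pos ((i : ℤ) + m) hn0
    omega
  · intro i _
    rw [mem_range]
    have h1 := Int.emod_nonneg ((i : ℤ) - m) hn0.ne'
    have h2 := Int.emod_lt_of_pos ((i : ℤ) - m) hn0
    omega
  · intro i hi
    rw [mem_range] at hi
    show ((((((i : ℤ) + m) % n).toNat : ℤ) - m) % n).toNat = i
    rw [Int.toNat_of_nonneg (Int.emod_nonneg _ hn0.ne'), Int.emod_sub_emod, add_sub_cancel_right,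
      Int.emod_eq_of_lt (by omega) (by omega)]
    omega
  · intro i hi
    rw [mem_range] at hi
    show ((((((i : ℤ) - m) % n).toNat : ℤ) + m) % n).toNat = i
    rw [Int.toNat_of_nonneg (Int.emod_nonneg _ hn0.ne'), Int.emod_add_emod, sub_add_cancel,
      Int.emod_eq_of_lt (by omega) (by omega)]
    omega
  · intro i _
    show F (i + m) = F ((((i : ℤ) + m) % n).toNat : ℤ)
    rw [Int.toNat_of_nonneg (Int.emod_nonneg _ hn0.ne'), hmod]

theorem sum_sq (m : ℕ) : ∑ i ∈ range m, 1 / ((i : ℝ) + 1) ^ 2 ≤ 2 := by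
  rcases Nat.eq_zero_or_pos m with rfl | hm
  · simp
  have h : ∀ k : ℕ, ∑ i ∈ range (k + 1), 1 / ((i : ℝ) + 1) ^ 2 ≤ 2 - 1 / ((k : ℝ) + 1) := by
    intro k
    induction k with
    | zero => norm_num
    | succ k ih =>
      rw [sum_range_succ]
      have hk : (0 : ℝ) < k + 1 := by positivity
      have hk2 : (0 : ℝ) < k + 1 + 1 := by positivity
      have h1 : 1 / ((k : ℝ) + 1 + 1) ^ 2 ≤ 1 / ((k : ℝ) + 1) - 1 / ((k : ℝ) + 1 + 1) := by
        rw [div_sub_div _ _ hk.ne' hk2.ne', div_le_div_iff₀ (by positivity) (by positivity)]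
        nlinarith
      push_cast
      linarith
  obtain ⟨k, rfl⟩ : ∃ k, m = k + 1 := ⟨m - 1, by omega⟩
  have h1 := h k
  have h2 : (0 : ℝ) ≤ 1 / ((k : ℝ) + 1) := by positivity
  linarith

theorem hGNP : StGNP := by
  intro n φ X hn hX
  have hn0 : (0 : ℝ) < n := by exact_mod_cast hn
  set s : ℝ := φ - round φ with hs
  have hsnd : |s| = nd φ := rfl
  have hs2 : |s| ≤ 1 / 2 := abs_sub_round φ
  have hs3 := abs_le.1 hs2
  have hper : ∀ t : ℝ, gs X (t + 1) = gs X t := by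
    intro t
    have h := nd_add_int t 1
    rw [Int.cast_one] at h
    unfold gs
    rw [h]
  -- shift
  have h1 : ∑ i ∈ range n, gs X ((φ + i) / n) ^ 2 = ∑ i ∈ range n, gs X ((s + i) / n) ^ 2 := by
    have h := sum_shift hn (fun j : ℤ => gs X ((s + j) / n) ^ 2) (fun j => by
      show gs X ((s + ((j + n : ℤ) : ℝ)) / n) ^ 2 = gs X ((s + j) / n) ^ 2
      rw [show (s + ((j + n : ℤ) : ℝ)) / n = (s + j) / n + 1 by
        push_cast; field_simp; ring, hper]) (round φ)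
    have h2 : ∀ i : ℕ, gs X ((φ + i) / n) ^ 2 = gs X ((s + (((i : ℤ) + round φ : ℤ) : ℝ)) / n) ^ 2 := by
      intro i
      congr 3
      rw [hs]
      push_cast
      ring
    rw [sum_congr rfl (fun i _ => h2 i), h]
    simp
  rw [h1]
  obtain ⟨m, rfl⟩ : ∃ m, n = m + 1 := ⟨n - 1, by omega⟩
  rw [sum_range_succ']
  have h0 : gs X ((s + ((0 : ℕ) : ℝ)) / ((m + 1 : ℕ) : ℝ)) = gs X (nd φ / ((m + 1 : ℕ) : ℝ)) := by
    rw [Nat.cast_zero, add_zero, ← hsnd]
    rcases abs_choice s with h | h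
    · rw [h]
    · rw [h, neg_div]
      unfold gs
      rw [nd_neg]
  rw [h0, add_comm]
  have hterm : ∀ i ∈ range m, gs X ((s + ((i + 1 : ℕ) : ℝ)) / ((m + 1 : ℕ) : ℝ)) ^ 2 ≤
      4 * ((m + 1 : ℕ) : ℝ) ^ 2 * (1 / ((i : ℝ) + 1) ^ 2) +
      4 * ((m + 1 : ℕ) : ℝ) ^ 2 * (1 / (((m - 1 - i : ℕ) : ℝ) + 1) ^ 2) := by
    intro i hi
    rw [mem_range] at hi
    have hcast : (((m - 1 - i : ℕ) : ℝ) + 1) = (m : ℝ) - i := by
      rw [Nat.cast_sub (by omega), Nat.cast_sub (by omega)]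
      push_cast
      ring
    rw [hcast]
    have him : (i : ℝ) + 1 ≤ m := by exact_mod_cast hi
    set r : ℝ := min ((i : ℝ) + 1) (m - i) with hr
    have hr1 : 1 ≤ r := le_min (by linarith [(Nat.cast_nonneg i : (0 : ℝ) ≤ i)]) (by linarith)
    have hra : r ≤ (i : ℝ) + 1 := min_le_left _ _
    have hrb : r ≤ m - i := min_le_right _ _
    have hc : 0 < r / (2 * ((m + 1 : ℕ) : ℝ)) := by positivity
    have hnd : r / (2 * ((m + 1 : ℕ) : ℝ)) ≤ nd ((s + ((i + 1 : ℕ) : ℝ)) / ((m + 1 : ℕ) : ℝ)) := by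
      apply le_nd
      intro k
      rw [show (s + ((i + 1 : ℕ) : ℝ)) / ((m + 1 : ℕ) : ℝ) - k =
        (s + (i + 1) - k * ((m + 1 : ℕ) : ℝ)) / ((m + 1 : ℕ) : ℝ) by push_cast; field_simp,
        abs_div, abs_of_pos hn0, div_le_div_iff₀ (by positivity) hn0]
      have h5 : r / 2 ≤ |s + (i + 1) - k * ((m + 1 : ℕ) : ℝ)| := by
        rcases le_or_gt k 0 with hk | hk
        · have hk' : (k : ℝ) ≤ 0 := by exact_mod_cast hk
          have h6 : (k : ℝ) * ((m + 1 : ℕ) : ℝ) ≤ 0 := mul_nonpos_of_nonpos_of_nonneg hk' hn0.le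
          refine le_trans ?_ (le_abs_self _)
          linarith
        · have hk' : (1 : ℝ) ≤ k := by exact_mod_cast hk
          have h6 : ((m + 1 : ℕ) : ℝ) ≤ (k : ℝ) * ((m + 1 : ℕ) : ℝ) :=
            le_mul_of_one_le_left hn0.le hk'
          have h7 : ((m + 1 : ℕ) : ℝ) = m + 1 := by push_cast; ring
          refine le_trans ?_ (neg_le_abs _)
          linarith
      nlinarith
    have h8 := gs_le (X := X) hc hnd
    have h9 : gs X ((s + ((i + 1 : ℕ) : ℝ)) / ((m + 1 : ℕ) : ℝ)) ^ 2 ≤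
        (1 / (r / (2 * ((m + 1 : ℕ) : ℝ)))) ^ 2 := pow_le_pow_left₀ (gs_nonneg hX) h8 2
    have h10 : (1 / (r / (2 * ((m + 1 : ℕ) : ℝ)))) ^ 2 = 4 * ((m + 1 : ℕ) : ℝ) ^ 2 * (1 / r ^ 2) := by
      field_simp
      ring
    rw [h10] at h9
    have h11 : 1 / r ^ 2 ≤ 1 / ((i : ℝ) + 1) ^ 2 + 1 / ((m : ℝ) - i) ^ 2 := by
      have p1 : 0 ≤ 1 / ((i : ℝ) + 1) ^ 2 := by positivity
      have p2 : 0 ≤ 1 / ((m : ℝ) - i) ^ 2 := by positivity
      rcases min_choice ((i : ℝ) + 1) ((m : ℝ) - i) with h | h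
      · rw [hr, h]; linarith
      · rw [hr, h]; linarith
    calc _ ≤ 4 * ((m + 1 : ℕ) : ℝ) ^ 2 * (1 / r ^ 2) := h9
      _ ≤ 4 * ((m + 1 : ℕ) : ℝ) ^ 2 * (1 / ((i : ℝ) + 1) ^ 2 + 1 / ((m : ℝ) - i) ^ 2) :=
        mul_le_mul_of_nonneg_left h11 (by positivity)
      _ = _ := by ring
  have hsum := sum_le_sum hterm
  rw [sum_add_distrib, ← mul_sum, ← mul_sum,
    sum_range_reflect (fun j : ℕ => 1 / ((j : ℝ) + 1) ^ 2) m] at hsum
  have h12 := sum_sq m
  have h13 : 0 ≤ 4 * ((m + 1 : ℕ) : ℝ) ^ 2 := by positivity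
  have h14 := mul_le_mul_of_nonneg_left h12 h13
  linarith

end Pool.Agent.Helper45.E3
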